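import Mathlib
import Pool.Agent.V11194.Rev2

set_option autoImplicit false

/-!
# A sphere of revolution with increasing half period whose cut loci are not subarcs
-/

open Real Set Filter Topology MeasureTheory

namespace Pool.Agent.Results.MP_e92360_gt.CutLocusOff

/-- Euclidean space, which contains the unit sphere as a model of the 2-sphere. -/
abbrev E3 : Type := EuclideanSpace ℝ (Fin 3)

/-- The point of the unit sphere with polar coordinates `(r, θ)` about the south pole
`(0, 0, -1)`. -/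
noncomputable def pt (r θ : ℝ) : E3 := !₂[sin r * cos θ, sin r * sin θ, -cos r]

/-- Profile functions: `m` (extended from `[0, π]` to an odd function on `ℝ` by
`m (π - r) = m r`) is smooth, `m'(0) = 1`, `m > 0` on `(0, π)` and `m' > 0` on `(0, π/2)`. -/
structure IsProfile (m : ℝ → ℝ) : Prop where
  smooth : ContDiff ℝ (⊤ : ℕ∞) m
  odd : ∀ r, m (-r) = - m r
  symm : ∀ r, m (π - r) = m r
  deriv_zero : deriv m 0 = 1
  pos : ∀ r, 0 < r → r < π → 0 < m r
  deriv_pos : ∀ r, 0 < r → r < π / 2 → 0 < deriv m r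

/-- The length of the tangent vector `v` of the unit sphere at `x` for the metric
`dr² + m(r)² dθ²`, where `r = arccos (-x₂)`, `dr = dx₂ / √(1 - x₂²)` and
`dθ = (x₀ dx₁ - x₁ dx₀) / (x₀² + x₁²)`; at the two poles it is the Euclidean length. -/
noncomputable def speed (m : ℝ → ℝ) (x v : E3) : ℝ :=
  open Classical in
  if x 0 = 0 ∧ x 1 = 0 then ‖v‖
  else √(v 2 ^ 2 / (1 - x 2 ^ 2) +
    m (arccos (-x 2)) ^ 2 * ((x 0 * v 1 - x 1 * v 0) / (x 0 ^ 2 + x 1 ^ 2)) ^ 2)

/-- `Joined m x y l`: the points `x`, `y` of the unit sphere are joined by a piecewise `C¹` curve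
of length `l` in the sphere, with respect to the metric `dr² + m(r)² dθ²`. -/
inductive Joined (m : ℝ → ℝ) : E3 → E3 → ℝ → Prop
  | arc (c : ℝ → E3) (a b : ℝ) (hab : a ≤ b) (hc : ContDiff ℝ 1 c)
      (hs : ∀ t ∈ Icc a b, ‖c t‖ = 1) :
      Joined m (c a) (c b) (∫ t in a..b, speed m (c t) (deriv c t))
  | trans (x y z : E3) (l l' : ℝ) (h : Joined m x y l) (h' : Joined m y z l') :
      Joined m x z (l + l')

/-- The Riemannian distance. -/
noncomputable def dist' (m : ℝ → ℝ) (x y : E3) : ℝ := sInf {l | Joined m x y l}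

/-- Unit speed geodesics `γ : ℝ → S²`: smooth unit speed curves which satisfy, in the polar
coordinates `(r, θ)` and off the poles, the geodesic equations `r'' = m(r) m'(r) θ'²` and
`(m(r)² θ')' = 0`. -/
structure IsGeodesic (m : ℝ → ℝ) (γ : ℝ → E3) : Prop where
  smooth : ContDiff ℝ (⊤ : ℕ∞) γ
  sphere : ∀ t, ‖γ t‖ = 1
  unit : ∀ t, speed m (γ t) (deriv γ t) = 1
  eqn : ∀ t, ¬ (γ t 0 = 0 ∧ γ t 1 = 0) → ∃ r θ : ℝ → ℝ,
    ContDiffAt ℝ (⊤ : ℕ∞) r t ∧ ContDiffAt ℝ (⊤ : ℕ∞) θ t ∧
    ∀ᶠ s in 𝓝 t, γ s = pt (r s) (θ s) ∧ 0 < r s ∧ r s < π ∧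
      deriv (deriv r) s = m (r s) * deriv m (r s) * deriv θ s ^ 2 ∧
      deriv (fun s => m (r s) ^ 2 * deriv θ s) s = 0

/-- The cut locus of `p`: the set of the points `γ (T)`, where `γ` is a unit speed geodesic with
`γ (0) = p` and `T` is its cut time, the supremum of the `t ≥ 0` with `d(p, γ(t)) = t`. -/
def CutLocus (m : ℝ → ℝ) (p : E3) : Set E3 :=
  {x | ∃ γ : ℝ → E3, IsGeodesic m γ ∧ γ 0 = p ∧ x = γ (sSup {t | 0 ≤ t ∧ dist' m p (γ t) = t})}

/-- The open half meridian `θ = θ₀`. -/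
def halfMeridian (θ₀ : ℝ) : Set E3 := {x | ∃ r, 0 < r ∧ r < π ∧ x = pt r θ₀}

/-- `C` is a subarc of the half meridian `θ = π`. -/
def IsSubarc (C : Set E3) : Prop := C ⊆ halfMeridian π ∧ IsCompact C ∧ IsConnected C

/-- The half period function. -/
noncomputable def halfPeriod (m : ℝ → ℝ) (ν : ℝ) : ℝ :=
  2 * ∫ x in (Function.invFunOn m (Icc 0 (π / 2)) ν)..(π / 2), ν / (m x * √(m x ^ 2 - ν ^ 2))

open Pool.Agent.V11194.Rev

lemma isProfile_mm : IsProfile mm where
  smooth := contDiff_mm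
  odd r := by unfold mm; rw [uu_neg, sin_neg]; ring
  symm r := by unfold mm; rw [uu_pi_sub, sin_pi_sub]
  deriv_zero := deriv_mm_zero
  pos r h0 h1 := mm_pos h0 h1
  deriv_pos r h0 h1 := deriv_mm_pos h0 h1

lemma mm_max : mm (π / 2) = 40 / 41 := by
  unfold mm
  rw [uu_pi_div_two, sin_pi_div_two, mul_one]

lemma mm_injOn : InjOn mm (Icc 0 (π / 2)) := by
  intro a ha b hb hab
  unfold mm at hab
  have h1 : sin (uu a) = sin (uu b) := by linarith
  have h2 : ∀ r ∈ Icc 0 (π / 2), uu r ∈ Icc (-(π / 2)) (π / 2) := by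
    rintro r ⟨hr0, hr1⟩
    constructor
    · have := uu_mono.monotone hr0
      rw [uu_zero] at this
      linarith [pi_pos]
    · have := uu_mono.monotone hr1
      rwa [uu_pi_div_two] at this
  exact uu_mono.injective (injOn_sin (h2 a ha) (h2 b hb) h1)

lemma halfPeriod_mm {ν : ℝ} (h0 : 0 < ν) (h1 : ν < 40 / 41) :
    halfPeriod mm ν = π * (1 + 1 / 10 * (41 / 40 * ν) ^ 3) := by
  set σ := 41 / 40 * ν with hσ
  have hσ0 : 0 < σ := by positivity
  have hσ1 : σ < 1 := by rw [hσ]; linarith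
  have hν : ν = 40 / 41 * σ := by rw [hσ]; ring
  have hmem : RR (arcsin σ) ∈ Icc 0 (π / 2) := by
    constructor
    · rw [← RR_zero]; exact RR_mono.monotone (arcsin_nonneg.2 hσ0.le)
    · rw [← RR_pi_div_two]; exact RR_mono.monotone (arcsin_le_pi_div_two _)
  have hval : mm (RR (arcsin σ)) = ν := by
    rw [mm_RR, sin_arcsin (by linarith) hσ1.le, hν]
  have hinv : Function.invFunOn mm (Icc 0 (π / 2)) ν = RR (arcsin σ) := by
    have hex : ∃ a ∈ Icc 0 (π / 2), mm a = ν := ⟨_, hmem, hval⟩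
    apply mm_injOn (Function.invFunOn_mem hex) hmem
    rw [Function.invFunOn_eq hex, hval]
  unfold halfPeriod
  rw [hinv, intervalIntegral.integral_of_le hmem.2, integral_Ioc_eq_integral_Ioo, hν,
    integral_eq hσ0 hσ1]
  ring

lemma halfPeriod_mono : MonotoneOn (halfPeriod mm) (Ioo 0 (mm (π / 2))) := by
  rw [mm_max]
  rintro a ⟨ha0, ha1⟩ b ⟨hb0, hb1⟩ hab
  rw [halfPeriod_mm ha0 ha1, halfPeriod_mm hb0 hb1]
  have h1 : (41 / 40 * a) ^ 3 ≤ (41 / 40 * b) ^ 3 := by gcongr
  have := pi_pos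
  nlinarith

/-! ### General facts on curves -/

lemma pt_coords (r θ : ℝ) :
    pt r θ 0 = sin r * cos θ ∧ pt r θ 1 = sin r * sin θ ∧ pt r θ 2 = -cos r := by
  simp [pt]

lemma norm_pt (r θ : ℝ) : ‖pt r θ‖ = 1 := by
  obtain ⟨h0, h1, h2⟩ := pt_coords r θ
  have h3 : ‖pt r θ‖ ^ 2 = 1 := by
    rw [EuclideanSpace.norm_sq_eq, Fin.sum_univ_three]
    simp only [Real.norm_eq_abs, sq_abs]
    rw [h0, h1, h2]
    have e1 := sin_sq_add_cos_sq r
    have e2 := sin_sq_add_cos_sq θ
    linear_combination sin r ^ 2 * e2 + e1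
  have h4 := norm_nonneg (pt r θ)
  nlinarith

lemma pt_ne_pole {r θ : ℝ} (h0 : 0 < r) (h1 : r < π) : ¬ (pt r θ 0 = 0 ∧ pt r θ 1 = 0) := by
  obtain ⟨e0, e1, _⟩ := pt_coords r θ
  rw [e0, e1]
  rintro ⟨h2, h3⟩
  have hs := (sin_pos_of_pos_of_lt_pi h0 h1).ne'
  have h4 := (mul_eq_zero.1 h2).resolve_left hs
  have h5 := (mul_eq_zero.1 h3).resolve_left hs
  have := sin_sq_add_cos_sq θ
  rw [h4, h5] at this
  norm_num at this

lemma hasDeriv_coord {f : ℝ → E3} {f' : E3} {t : ℝ}
    (h : ∀ i, HasDerivAt (fun s => f s i) (f' i) t) : HasDerivAt f f' t := by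
  rw [hasDerivAt_iff_hasFDerivAt, ← hasFDerivWithinAt_univ, hasFDerivWithinAt_euclidean]
  intro i
  have h1 := (h i).hasFDerivAt
  rw [hasFDerivWithinAt_univ]
  have h2 : PiLp.proj 2 (fun _ : Fin 3 => ℝ) i ∘SL ContinuousLinearMap.toSpanSingleton ℝ f' =
    ContinuousLinearMap.toSpanSingleton ℝ (f'.ofLp i) := by
    ext
    simp
  rw [← h2] at h1
  exact h1

lemma hasDeriv_pt {r θ : ℝ → ℝ} {r' θ' t : ℝ} (hr : HasDerivAt r r' t) (hθ : HasDerivAt θ θ' t) :
    HasDerivAt (fun s => pt (r s) (θ s))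
      !₂[cos (r t) * r' * cos (θ t) - sin (r t) * (sin (θ t) * θ'),
        cos (r t) * r' * sin (θ t) + sin (r t) * (cos (θ t) * θ'), sin (r t) * r'] t := by
  apply hasDeriv_coord
  intro i
  fin_cases i
  · show HasDerivAt (fun s => sin (r s) * cos (θ s))
      (cos (r t) * r' * cos (θ t) - sin (r t) * (sin (θ t) * θ')) t
    refine (hr.sin.mul hθ.cos).congr_deriv ?_
    ring
  · show HasDerivAt (fun s => sin (r s) * sin (θ s))
      (cos (r t) * r' * sin (θ t) + sin (r t) * (cos (θ t) * θ')) t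
    refine (hr.sin.mul hθ.sin).congr_deriv ?_
    ring
  · show HasDerivAt (fun s => -cos (r s)) (sin (r t) * r') t
    refine hr.cos.neg.congr_deriv ?_
    ring

lemma speed_pt (m : ℝ → ℝ) {r θ r' θ' : ℝ} (h0 : 0 < r) (h1 : r < π) :
    speed m (pt r θ) !₂[cos r * r' * cos θ - sin r * (sin θ * θ'),
        cos r * r' * sin θ + sin r * (cos θ * θ'), sin r * r'] = √(r' ^ 2 + m r ^ 2 * θ' ^ 2) := by
  unfold speed
  rw [if_neg (pt_ne_pole h0 h1)]
  obtain ⟨e0, e1, e2⟩ := pt_coords r θ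
  rw [e0, e1, e2, neg_neg, arccos_cos h0.le h1.le]
  have hs := sin_pos_of_pos_of_lt_pi h0 h1
  have c1 := sin_sq_add_cos_sq r
  have c2 := sin_sq_add_cos_sq θ
  congr 1
  congr 1
  · have : 1 - (-cos r) ^ 2 = sin r ^ 2 := by linear_combination -c1
    rw [this]
    simp
    field_simp
  · congr 1
    have h2 : (sin r * cos θ) ^ 2 + (sin r * sin θ) ^ 2 = sin r ^ 2 := by
      linear_combination sin r ^ 2 * c2
    rw [h2]
    simp
    have h3 : sin r * cos θ * (cos r * r' * sin θ + sin r * (cos θ * θ')) -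
        sin r * sin θ * (cos r * r' * cos θ - sin r * (sin θ * θ')) = sin r ^ 2 * θ' := by
      linear_combination sin r ^ 2 * θ' * c2
    rw [h3]
    congr 1
    field_simp

lemma contDiff_pt {r θ : ℝ → ℝ} {n : WithTop ℕ∞} (hr : ContDiff ℝ n r) (hθ : ContDiff ℝ n θ) :
    ContDiff ℝ n (fun s => pt (r s) (θ s)) := by
  rw [contDiff_euclidean]
  intro i
  fin_cases i
  · show ContDiff ℝ n (fun s => sin (r s) * cos (θ s))
    exact hr.sin.mul hθ.cos
  · show ContDiff ℝ n (fun s => sin (r s) * sin (θ s))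
    exact hr.sin.mul hθ.sin
  · show ContDiff ℝ n (fun s => -cos (r s))
    exact hr.cos.neg

lemma speed_neg (m : ℝ → ℝ) (x v : E3) : speed m x (-v) = speed m x v := by
  unfold speed
  split_ifs with h
  · exact norm_neg v
  · simp only [PiLp.neg_apply]
    congr 1
    ring

lemma speed_nonneg (m : ℝ → ℝ) (x v : E3) : 0 ≤ speed m x v := by
  unfold speed
  split_ifs with h
  · exact norm_nonneg v
  · exact sqrt_nonneg _

lemma joined_nonneg {m : ℝ → ℝ} {x y : E3} {l : ℝ} (h : Joined m x y l) : 0 ≤ l := by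
  induction h with
  | arc c a b hab hc hs =>
    exact intervalIntegral.integral_nonneg hab (fun t _ => speed_nonneg _ _ _)
  | trans x y z l l' h h' ih ih' => exact add_nonneg ih ih'

lemma dist_le {m : ℝ → ℝ} {x y : E3} {l : ℝ} (h : Joined m x y l) : dist' m x y ≤ l :=
  csInf_le ⟨0, fun _ h' => joined_nonneg h'⟩ h

lemma dist_self' (m : ℝ → ℝ) {x : E3} (hx : ‖x‖ = 1) : dist' m x x = 0 := by
  have h := Joined.arc (m := m) (fun _ => x) 0 0 (le_refl _) contDiff_const (fun _ _ => hx)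
  rw [intervalIntegral.integral_same] at h
  refine le_antisymm (dist_le h) ?_
  exact le_csInf ⟨0, h⟩ (fun _ h' => joined_nonneg h')

/-- A curve of unit speed gives `Joined` with the difference of the parameters. -/
lemma joined_unit {m : ℝ → ℝ} {c : ℝ → E3} {a b : ℝ} (hab : a ≤ b) (hc : ContDiff ℝ 1 c)
    (hs : ∀ t ∈ Icc a b, ‖c t‖ = 1) (hu : ∀ t ∈ Icc a b, speed m (c t) (deriv c t) = 1) :
    Joined m (c a) (c b) (b - a) := by
  have h := Joined.arc (m := m) c a b hab hc hs
  have e : (∫ t in a..b, speed m (c t) (deriv c t)) = b - a := by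
    rw [intervalIntegral.integral_congr (g := fun _ => (1 : ℝ))]
    · simp
    · intro t ht
      rw [uIcc_of_le hab] at ht
      exact hu t ht
  rwa [e] at h

/-! ### The geodesic -/

/-- The geodesic. -/
noncomputable def geo (t : ℝ) : E3 := pt (rg t) (tg t)

lemma contDiff_geo : ContDiff ℝ (⊤ : ℕ∞) geo := contDiff_pt contDiff_rg contDiff_tg

lemma speed_geo (t : ℝ) : speed mm (geo t) (deriv geo t) = 1 := by
  have h1 := ((contDiff_rg.differentiable (by simp)) t).hasDerivAt
  have h2 := ((contDiff_tg.differentiable (by simp)) t).hasDerivAt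
  have h3 : HasDerivAt geo _ t := hasDeriv_pt h1 h2
  rw [h3.deriv]
  unfold geo
  rw [speed_pt mm (rg_mem t).1 (rg_mem t).2, unit_speed, sqrt_one]

lemma isGeodesic_geo : IsGeodesic mm geo where
  smooth := contDiff_geo
  sphere t := norm_pt _ _
  unit := speed_geo
  eqn t _ := by
    refine ⟨rg, tg, contDiff_rg.contDiffAt, contDiff_tg.contDiffAt, Eventually.of_forall
      fun s => ⟨rfl, (rg_mem s).1, (rg_mem s).2, geod_r s, ?_⟩⟩
    have : (fun s => mm (rg s) ^ 2 * deriv tg s) = fun _ => 24 / 41 := by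
      funext s
      exact clairaut s
    rw [this]
    simp

lemma geo_zero : geo 0 = pt (π / 2) 0 := by
  have h1 : rg 0 = π / 2 := by
    unfold rg
    rw [ww_zero]
    unfold Uu
    rw [sin_zero, mul_zero, arccos_zero, RR_pi_div_two]
  have h2 : tg 0 = 0 := by
    unfold tg
    rw [ww_zero, Th_zero]
  unfold geo
  rw [h1, h2]

lemma tg_mono : StrictMono tg := Th_mono.comp ww_mono

lemma tg_zero : tg 0 = 0 := by
  unfold tg
  rw [ww_zero, Th_zero]

/-- The geodesic joins any two of its points. -/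
lemma joined_geo (a b : ℝ) : Joined mm (geo a) (geo b) |b - a| := by
  rcases le_total a b with hab | hab
  · rw [abs_of_nonneg (by linarith)]
    exact joined_unit hab (contDiff_geo.of_le (by exact_mod_cast le_top)) (fun t _ => norm_pt _ _)
      (fun t _ => speed_geo t)
  · rw [abs_of_nonpos (by linarith)]
    have h := joined_unit (m := mm) (c := fun s => geo (-s)) (a := -a) (b := -b) (by linarith)
      ((contDiff_geo.comp contDiff_neg).of_le (by exact_mod_cast le_top))
      (fun t _ => norm_pt _ _) (fun t _ => by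
        have h1 := ((contDiff_geo.differentiable (by simp)) (-t)).hasDerivAt
        have h2 : HasDerivAt (fun s => geo (-s)) _ t := h1.scomp t (hasDerivAt_neg t)
        rw [h2.deriv]
        rw [neg_smul, one_smul, speed_neg, speed_geo])
    simp only [neg_neg] at h
    convert h using 1
    ring

/-! ### The meridian through the south pole -/

lemma joined_meridian {ρ : ℝ} (h0 : 0 < ρ) (h1 : ρ < π) :
    Joined mm (pt (π / 2) 0) (pt ρ π) (π / 2 + ρ) := by
  have hpi := pi_pos
  have hd : ∀ s : ℝ, HasDerivAt (fun s => pt (-s) 0) !₂[-cos s, 0, sin s] s := by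
    intro s
    have h := hasDeriv_pt (hasDerivAt_neg s) (hasDerivAt_const s (0 : ℝ))
    simpa using h
  have h := joined_unit (m := mm) (c := fun s => pt (-s) 0) (a := -(π / 2)) (b := ρ)
    (by linarith) (contDiff_pt contDiff_neg contDiff_const) (fun t _ => norm_pt _ _) (by
      intro s hs
      rw [(hd s).deriv]
      obtain ⟨e0, e1, e2⟩ := pt_coords (-s) 0
      unfold speed
      by_cases hz : s = 0
      · subst hz
        rw [if_pos (by rw [e0, e1]; simp)]
        rw [EuclideanSpace.norm_eq, Fin.sum_univ_three]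
        simp
      · have hss : sin s ≠ 0 := by
          intro h0
          rcases lt_or_gt_of_ne hz with h | h
          · exact (sin_neg_of_neg_of_neg_pi_lt h (by linarith [hs.1])).ne h0
          · exact (sin_pos_of_pos_of_lt_pi h (by linarith [hs.2])).ne' h0
        rw [if_neg (by rw [e0, e1]; simpa using hss), e0, e1, e2]
        have c1 := sin_sq_add_cos_sq s
        have : 1 - (-cos (-s)) ^ 2 = sin s ^ 2 := by
          rw [cos_neg]
          linear_combination -c1
        rw [this]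
        simp [hss])
  simp only [neg_neg] at h
  have e : pt (-ρ) 0 = pt ρ π := by
    unfold pt
    simp
  rw [e] at h
  convert h using 1
  ring

/-- Every `t ≥ 0` with `d(p, γ(t)) = t` is bounded by a number less than the parameter at which
`γ` reaches the opposite half meridian. -/
lemma cut_time : ∃ T B, tg T = π ∧ B < T ∧ ∀ t, 0 ≤ t → dist' mm (pt (π / 2) 0) (geo t) = t →
    t ≤ B := by
  obtain ⟨w, hw0, hw1, hw2⟩ := exists_w
  have hlen := length_ineq hw0 hw1 hw2
  have htg : tg (LL w) = π := by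
    unfold tg
    rw [ww_LL, hw2]
  have hrg : rg (LL w) = RR (Uu (3 / 5) w) := by
    unfold rg
    rw [ww_LL]
  set T := LL w
  set ρ := RR (Uu (3 / 5) w)
  refine ⟨T, (π / 2 + ρ + T) / 2, htg, by linarith, fun t ht hdt => ?_⟩
  have hgT : geo T = pt ρ π := by
    unfold geo
    rw [hrg, htg]
  have hmem := rg_mem T
  rw [hrg] at hmem
  have hj := (joined_meridian hmem.1 hmem.2).trans _ _ _ _ _ (hgT ▸ joined_geo T t)
  have hle := dist_le hj
  rw [hdt] at hle
  rcases le_total T t with h | h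
  · rw [abs_of_nonneg (by linarith)] at hle
    linarith
  · rw [abs_of_nonpos (by linarith)] at hle
    linarith

lemma not_mem_halfMeridian {t : ℝ} (h0 : 0 ≤ tg t) (h1 : tg t < π) :
    geo t ∉ halfMeridian π := by
  rintro ⟨r, hr0, hr1, hr⟩
  have e0 : geo t 0 = pt r π 0 := by rw [hr]
  have e1 : geo t 1 = pt r π 1 := by rw [hr]
  unfold geo at e0 e1
  rw [(pt_coords _ _).1, (pt_coords _ _).1, cos_pi] at e0
  rw [(pt_coords _ _).2.1, (pt_coords _ _).2.1, sin_pi, mul_zero] at e1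
  have hs := sin_pos_of_pos_of_lt_pi (rg_mem t).1 (rg_mem t).2
  have hs' := sin_pos_of_pos_of_lt_pi hr0 hr1
  have h3 := (mul_eq_zero.1 e1).resolve_left hs.ne'
  rcases h0.lt_or_eq with h4 | h4
  · exact (sin_pos_of_pos_of_lt_pi h4 h1).ne' h3
  · rw [← h4, cos_zero] at e0
    linarith

/-- Q1 is false: there are a 2-sphere of revolution as in the problem, with increasing half period
function, and a point `p` of `θ⁻¹(0)` whose cut locus is not contained in the opposite half
meridian `θ⁻¹(π)`; in particular it is not a subarc of it. -/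
theorem result : ∃ m : ℝ → ℝ, IsProfile m ∧ MonotoneOn (halfPeriod m) (Ioo 0 (m (π / 2))) ∧
    ∃ p ∈ halfMeridian 0, ¬ (CutLocus m p ⊆ halfMeridian π) ∧ ¬ IsSubarc (CutLocus m p) := by
  have hpi := pi_pos
  have key : ¬ (CutLocus mm (pt (π / 2) 0) ⊆ halfMeridian π) := by
    intro hsub
    obtain ⟨T, B, hT, hBT, hB⟩ := cut_time
    have hmem : geo (sSup {t | 0 ≤ t ∧ dist' mm (pt (π / 2) 0) (geo t) = t}) ∈
        CutLocus mm (pt (π / 2) 0) := ⟨geo, isGeodesic_geo, geo_zero, rfl⟩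
    have h0 : (0 : ℝ) ∈ {t | 0 ≤ t ∧ dist' mm (pt (π / 2) 0) (geo t) = t} :=
      ⟨le_refl _, by rw [geo_zero]; exact dist_self' _ (norm_pt _ _)⟩
    have hbdd : BddAbove {t | 0 ≤ t ∧ dist' mm (pt (π / 2) 0) (geo t) = t} :=
      ⟨B, fun t ht => hB t ht.1 ht.2⟩
    have hlow := le_csSup hbdd h0
    have hup : sSup {t | 0 ≤ t ∧ dist' mm (pt (π / 2) 0) (geo t) = t} ≤ B :=
      csSup_le ⟨0, h0⟩ fun t ht => hB t ht.1 ht.2
    refine not_mem_halfMeridian ?_ ?_ (hsub hmem)
    · have := tg_mono.monotone hlow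
      rwa [tg_zero] at this
    · have := tg_mono (lt_of_le_of_lt hup hBT)
      rwa [hT] at this
  exact ⟨mm, isProfile_mm, halfPeriod_mono, pt (π / 2) 0, ⟨π / 2, by linarith, by linarith, rfl⟩,
    key, fun h => key h.1⟩

end Pool.Agent.Results.MP_e92360_gt.CutLocusOff
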